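import Pool.Agent.TH612.GS.Stm3
import Pool.Agent.H510R2.Div

/-! Project GF, piece TL: the terms with a large product. -/

set_option autoImplicit false

namespace Pool.Agent.TH576.GF

section abstractPart

/-- number of factorisations -/
theorem tl_card (k X m : ℕ) (hm : m ≠ 0) :
    ((Fintype.piFinset (fun _ : Fin k => Finset.Icc 1 X)).filter
      (fun n => ∏ l, n l = m)).card ≤ m.divisors.card ^ k := by
  classical
  have h : (Fintype.piFinset (fun _ : Fin k => Finset.Icc 1 X)).filter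
      (fun n => ∏ l, n l = m) ⊆ Fintype.piFinset (fun _ : Fin k => m.divisors) := by
    intro n hn
    rw [Finset.mem_filter] at hn
    rw [Fintype.mem_piFinset]
    intro l
    rw [Nat.mem_divisors]
    exact ⟨hn.2 ▸ Finset.dvd_prod_of_mem _ (Finset.mem_univ l), hm⟩
  refine (Finset.card_le_card h).trans ?_
  rw [Fintype.card_piFinset]
  simp

/-- from dyadic blocks to the sum with weights `1 / m` -/
theorem tl_dyadic {c : ℕ → ℝ} (hc : ∀ m, 0 ≤ c m) {W S A : ℝ} {Y : ℕ} (hW : 0 < W) (hS : 0 ≤ S)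
    (hA : 0 ≤ A)
    (hb : ∀ M : ℕ, 1 ≤ M → ∑ m ∈ Finset.Icc M (2 * M), c m ≤
      A * (S + M * Real.log (2 * M))) :
    ∑ m ∈ (Finset.Icc 1 Y).filter (fun m : ℕ => W < (m : ℝ)), (m : ℝ)⁻¹ * c m ≤
      (Nat.log 2 Y + 1 : ℕ) * (A * (S * (2 / W) + Real.log (2 * (Y : ℝ)))) := by
  classical
  set J := (Finset.Icc 1 Y).filter (fun m : ℕ => W < (m : ℝ)) with hJ
  have hmaps : ∀ m ∈ J, Nat.log 2 m ∈ Finset.range (Nat.log 2 Y + 1) := by
    intro m hm
    rw [hJ, Finset.mem_filter, Finset.mem_Icc] at hm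
    rw [Finset.mem_range]
    have := Nat.log_mono_right (b := 2) hm.1.2
    omega
  rw [← Finset.sum_fiberwise_of_maps_to hmaps]
  have hblock : ∀ i ∈ Finset.range (Nat.log 2 Y + 1),
      ∑ m ∈ J with Nat.log 2 m = i, (m : ℝ)⁻¹ * c m ≤
        A * (S * (2 / W) + Real.log (2 * (Y : ℝ))) := by
    intro i hi
    rcases Finset.eq_empty_or_nonempty (J.filter fun m => Nat.log 2 m = i) with h0 | ⟨m0, hm0⟩
    · rw [h0, Finset.sum_empty]
      have hlog : 0 ≤ Real.log (2 * (Y : ℝ)) := by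
        rcases Nat.eq_zero_or_pos Y with h | h
        · rw [h]; simp
        · refine Real.log_nonneg ?_
          have : (1 : ℝ) ≤ Y := by exact_mod_cast h
          linarith
      positivity
    · rw [Finset.mem_filter, hJ, Finset.mem_filter, Finset.mem_Icc] at hm0
      obtain ⟨⟨⟨h1, h2⟩, h3⟩, h4⟩ := hm0
      have h5 : 2 ^ i ≤ m0 := by
        rw [← h4]
        exact Nat.pow_log_le_self 2 (by omega)
      have h6 : m0 < 2 ^ (i + 1) := by
        rw [← h4]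
        exact Nat.lt_pow_succ_log_self (by norm_num) m0
      have h2i : (0 : ℝ) < (2 : ℝ) ^ i := by positivity
      have hWi : W < 2 * (2 : ℝ) ^ i := by
        have : (m0 : ℝ) < 2 ^ (i + 1) := by exact_mod_cast h6
        rw [pow_succ] at this
        linarith
      have hiY : (2 : ℝ) ^ i ≤ Y := by exact_mod_cast h5.trans h2
      calc ∑ m ∈ J with Nat.log 2 m = i, (m : ℝ)⁻¹ * c m
          ≤ ∑ m ∈ J with Nat.log 2 m = i, ((2 : ℝ) ^ i)⁻¹ * c m := by
            refine Finset.sum_le_sum fun m hm => ?_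
            rw [Finset.mem_filter, hJ, Finset.mem_filter, Finset.mem_Icc] at hm
            refine mul_le_mul_of_nonneg_right ?_ (hc m)
            refine inv_anti₀ h2i ?_
            have : 2 ^ i ≤ m := by
              rw [← hm.2]
              exact Nat.pow_log_le_self 2 (by omega)
            exact_mod_cast this
        _ = ((2 : ℝ) ^ i)⁻¹ * ∑ m ∈ J with Nat.log 2 m = i, c m := by rw [Finset.mul_sum]
        _ ≤ ((2 : ℝ) ^ i)⁻¹ * ∑ m ∈ Finset.Icc (2 ^ i) (2 * 2 ^ i), c m := by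
            refine mul_le_mul_of_nonneg_left ?_ (by positivity)
            refine Finset.sum_le_sum_of_subset_of_nonneg ?_ (fun m _ _ => hc m)
            intro m hm
            rw [Finset.mem_filter, hJ, Finset.mem_filter, Finset.mem_Icc] at hm
            rw [Finset.mem_Icc]
            constructor
            · rw [← hm.2]
              exact Nat.pow_log_le_self 2 (by omega)
            · have : m < 2 ^ (i + 1) := by
                rw [← hm.2]
                exact Nat.lt_pow_succ_log_self (by norm_num) m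
              rw [pow_succ] at this
              omega
        _ ≤ ((2 : ℝ) ^ i)⁻¹ * (A * (S + (2 ^ i : ℕ) * Real.log (2 * (2 ^ i : ℕ)))) := by
            refine mul_le_mul_of_nonneg_left ?_ (by positivity)
            exact hb (2 ^ i) Nat.one_le_two_pow
        _ = A * (S * ((2 : ℝ) ^ i)⁻¹ + Real.log (2 * (2 : ℝ) ^ i)) := by
            push_cast
            field_simp
        _ ≤ A * (S * (2 / W) + Real.log (2 * (Y : ℝ))) := by
            refine mul_le_mul_of_nonneg_left (add_le_add ?_ ?_) hA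
            · refine mul_le_mul_of_nonneg_left ?_ hS
              rw [le_div_iff₀ hW, inv_mul_le_iff₀ h2i]
              linarith
            · exact Real.log_le_log (by positivity) (by linarith)
  calc ∑ i ∈ Finset.range (Nat.log 2 Y + 1), ∑ m ∈ J with Nat.log 2 m = i, (m : ℝ)⁻¹ * c m
      ≤ ∑ i ∈ Finset.range (Nat.log 2 Y + 1), A * (S * (2 / W) + Real.log (2 * (Y : ℝ))) :=
        Finset.sum_le_sum hblock
    _ = _ := by
        rw [Finset.sum_const, Finset.card_range, nsmul_eq_mul]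

/-- grouping the tuples by their product -/
theorem tl_group {c : ℕ → ℝ} (hc : ∀ m, 0 ≤ c m) {W D : ℝ} {k X : ℕ} (_hD : 0 ≤ D)
    (hd : ∀ m : ℕ, 1 ≤ m → m ≤ X ^ k → (m.divisors.card : ℝ) ^ k ≤ D) (s : Finset (Fin k → ℕ))
    (hs : ∀ n ∈ s, n ∈ Fintype.piFinset (fun _ : Fin k => Finset.Icc 1 X) ∧
      W < ((∏ l, n l : ℕ) : ℝ)) :
    ∑ n ∈ s, ((∏ l, n l : ℕ) : ℝ)⁻¹ * c (∏ l, n l) ≤
      D * ∑ m ∈ (Finset.Icc 1 (X ^ k)).filter (fun m : ℕ => W < (m : ℝ)), (m : ℝ)⁻¹ * c m := by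
  classical
  set J := (Finset.Icc 1 (X ^ k)).filter (fun m : ℕ => W < (m : ℝ)) with hJ
  have hmaps : ∀ n ∈ s, ∏ l, n l ∈ J := by
    intro n hn
    obtain ⟨h1, h2⟩ := hs n hn
    rw [Fintype.mem_piFinset] at h1
    rw [hJ, Finset.mem_filter, Finset.mem_Icc]
    refine ⟨⟨?_, ?_⟩, h2⟩
    · exact Finset.one_le_prod' fun l _ => (Finset.mem_Icc.1 (h1 l)).1
    · calc ∏ l, n l ≤ ∏ _l : Fin k, X := Finset.prod_le_prod' fun l _ => (Finset.mem_Icc.1 (h1 l)).2
        _ = X ^ k := by simp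
  rw [← Finset.sum_fiberwise_of_maps_to hmaps, Finset.mul_sum]
  refine Finset.sum_le_sum fun m hm => ?_
  have hm' := hm
  rw [hJ, Finset.mem_filter, Finset.mem_Icc] at hm'
  have hm0 : m ≠ 0 := by omega
  have hpos : 0 ≤ (m : ℝ)⁻¹ * c m := mul_nonneg (by positivity) (hc m)
  calc ∑ n ∈ s with ∏ l, n l = m, ((∏ l, n l : ℕ) : ℝ)⁻¹ * c (∏ l, n l)
      = ∑ n ∈ s with ∏ l, n l = m, (m : ℝ)⁻¹ * c m := by
        refine Finset.sum_congr rfl fun n hn => ?_
        rw [(Finset.mem_filter.1 hn).2]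
    _ = ((s.filter fun n => ∏ l, n l = m).card : ℝ) * ((m : ℝ)⁻¹ * c m) := by
        rw [Finset.sum_const, nsmul_eq_mul]
    _ ≤ D * ((m : ℝ)⁻¹ * c m) := by
        refine mul_le_mul_of_nonneg_right ?_ hpos
        refine le_trans ?_ (hd m hm'.1.1 hm'.1.2)
        have h1 : (s.filter fun n => ∏ l, n l = m).card ≤
            ((Fintype.piFinset (fun _ : Fin k => Finset.Icc 1 X)).filter
              (fun n => ∏ l, n l = m)).card := by
          refine Finset.card_le_card fun n hn => ?_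
          rw [Finset.mem_filter] at hn ⊢
          exact ⟨(hs n hn.1).1, hn.2⟩
        exact_mod_cast h1.trans (tl_card k X m hm0)

theorem tl_abs (C1 C2 : ℝ) (hC1 : 0 < C1) (hC2 : 0 < C2) : ∃ C : ℝ, 0 < C ∧
    ∀ (k : ℕ) (T S : ℝ) (X : ℕ) (c : ℕ → ℝ) (s : Finset (Fin k → ℕ)), k ≤ 4 → (∀ m, 0 ≤ c m) →
      2 ≤ T → 0 ≤ S → S ≤ T → (X : ℝ) ≤ 4 * T →
      (∀ M : ℕ, 1 ≤ M → ∑ m ∈ Finset.Icc M (2 * M), c m ≤
        C1 * (S + M * Real.log (2 * M)) * (C2 * T ^ (7 / 4 : ℝ))) →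
      (∀ n ∈ s, n ∈ Fintype.piFinset (fun _ : Fin k => Finset.Icc 1 X) ∧
        T ^ (7 / 8 : ℝ) < ((∏ l, n l : ℕ) : ℝ)) →
      ∑ n ∈ s, ((∏ l, n l : ℕ) : ℝ)⁻¹ * c (∏ l, n l) ≤ C * T ^ (19 / 10 : ℝ) := by
  obtain ⟨Cd, hCd0, hCd⟩ := Pool.Agent.H510R2.divisor_bound (1 / 16000) (by norm_num)
  obtain ⟨K, hK⟩ : ∃ K : ℝ, K = max Cd 1 := ⟨_, rfl⟩
  have hK1 : 1 ≤ K := hK ▸ le_max_right _ _
  have hKC : Cd ≤ K := hK ▸ le_max_left _ _
  obtain ⟨C3, hC3⟩ : ∃ C3 : ℝ, C3 = (2 * 4 ^ 4) ^ (1 / 4000 : ℝ) * 4000 := ⟨_, rfl⟩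
  have hC3p : 0 < C3 := by rw [hC3]; positivity
  obtain ⟨C4, hC4⟩ : ∃ C4 : ℝ, C4 = K ^ 4 * 4 ^ (1 / 1000 : ℝ) := ⟨_, rfl⟩
  have hC4p : 0 < C4 := by rw [hC4]; positivity
  refine ⟨C4 * (2 * C3 * (C1 * C2 * (2 + C3))), by positivity, ?_⟩
  intro k T S X c s hk hc hT hS hST hX hb hs
  have hT1 : 1 ≤ T := by linarith
  have hT0 : 0 < T := by linarith
  have h4T : 1 ≤ 4 * T := by linarith
  -- the range of the product
  have hXk : ((X ^ k : ℕ) : ℝ) ≤ (4 * T) ^ 4 := by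
    push_cast
    calc (X : ℝ) ^ k ≤ (4 * T) ^ k := pow_le_pow_left₀ (by positivity) hX k
      _ ≤ (4 * T) ^ 4 := pow_le_pow_right₀ h4T hk
  -- the logarithm
  obtain ⟨Λ, hΛ⟩ : ∃ Λ : ℝ, Λ = Real.log (2 * (4 * T) ^ 4) := ⟨_, rfl⟩
  have hΛle : Λ ≤ C3 * T ^ (1 / 1000 : ℝ) := by
    rw [hΛ]
    have h1 := Real.log_le_rpow_div (x := 2 * (4 * T) ^ 4) (by positivity)
      (ε := 1 / 4000) (by norm_num)
    refine h1.trans (le_of_eq ?_)
    have h2 : 2 * (4 * T) ^ 4 = (2 * 4 ^ 4) * T ^ (4 : ℕ) := by ring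
    rw [h2, Real.mul_rpow (by positivity) (by positivity), ← Real.rpow_natCast T 4,
      ← Real.rpow_mul hT0.le, hC3]
    norm_num
    ring
  have hΛ0 : 0 ≤ Λ := by
    rw [hΛ]
    refine Real.log_nonneg ?_
    have : 1 ≤ (4 * T) ^ 4 := one_le_pow₀ h4T
    linarith
  -- number of blocks
  have hL : ((Nat.log 2 (X ^ k) + 1 : ℕ) : ℝ) ≤ 2 * Λ := by
    have h1 : ((2 : ℝ) ^ (Nat.log 2 (X ^ k) + 1)) ≤ 2 * (4 * T) ^ 4 := by
      rw [pow_succ]
      have h2 : ((2 : ℝ) ^ (Nat.log 2 (X ^ k))) ≤ (4 * T) ^ 4 := by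
        rcases Nat.eq_zero_or_pos (X ^ k) with h | h
        · rw [h]
          simp only [Nat.log_zero_right, pow_zero]
          exact one_le_pow₀ h4T
        · refine le_trans ?_ hXk
          exact_mod_cast Nat.pow_log_le_self 2 (by omega)
      linarith
    have h2 := Real.log_le_log (by positivity) h1
    rw [Real.log_pow, ← hΛ] at h2
    have h3 : (1 / 2 : ℝ) ≤ Real.log 2 := by
      have := Real.log_two_gt_d9
      linarith
    have h4 : (0 : ℝ) ≤ ((Nat.log 2 (X ^ k) + 1 : ℕ) : ℝ) := by positivity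
    nlinarith
  -- the divisor bound
  obtain ⟨D, hD⟩ : ∃ D : ℝ, D = C4 * T ^ (1 / 1000 : ℝ) := ⟨_, rfl⟩
  have hD0 : 0 ≤ D := by rw [hD]; positivity
  have hdiv : ∀ m : ℕ, 1 ≤ m → m ≤ X ^ k → (m.divisors.card : ℝ) ^ k ≤ D := by
    intro m hm1 hm2
    have h1 : (1 : ℝ) ≤ m := by exact_mod_cast hm1
    have h2 : (m : ℝ) ≤ (4 * T) ^ 4 := le_trans (by exact_mod_cast hm2) hXk
    have h3 : (m.divisors.card : ℝ) ≤ K * (4 * T) ^ (1 / 4000 : ℝ) := by
      calc (m.divisors.card : ℝ) ≤ Cd * (m : ℝ) ^ (1 / 16000 : ℝ) := hCd m hm1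
        _ ≤ K * ((4 * T) ^ 4) ^ (1 / 16000 : ℝ) := by
            refine mul_le_mul hKC (Real.rpow_le_rpow (by positivity) h2 (by norm_num))
              (by positivity) (by linarith)
        _ = K * (4 * T) ^ (1 / 4000 : ℝ) := by
            rw [← Real.rpow_natCast (4 * T) 4, ← Real.rpow_mul (by positivity)]
            norm_num
    have h4 : 1 ≤ K * (4 * T) ^ (1 / 4000 : ℝ) :=
      one_le_mul_of_one_le_of_one_le hK1 (Real.one_le_rpow h4T (by norm_num))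
    calc (m.divisors.card : ℝ) ^ k ≤ (K * (4 * T) ^ (1 / 4000 : ℝ)) ^ k :=
          pow_le_pow_left₀ (by positivity) h3 k
      _ ≤ (K * (4 * T) ^ (1 / 4000 : ℝ)) ^ 4 := pow_le_pow_right₀ h4 hk
      _ = D := by
          rw [mul_pow, ← Real.rpow_natCast ((4 * T) ^ (1 / 4000 : ℝ)) 4,
            ← Real.rpow_mul (by positivity), Real.mul_rpow (by norm_num) hT0.le, hD, hC4]
          norm_num
          ring
  -- assembly
  have hW : 0 < T ^ (7 / 8 : ℝ) := Real.rpow_pos_of_pos hT0 _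
  have hA : 0 ≤ C1 * (C2 * T ^ (7 / 4 : ℝ)) := by positivity
  have hdy := tl_dyadic (c := c) hc (W := T ^ (7 / 8 : ℝ)) (S := S)
    (A := C1 * (C2 * T ^ (7 / 4 : ℝ))) (Y := X ^ k) hW hS hA (by
      intro M hM
      refine (hb M hM).trans (le_of_eq ?_)
      ring)
  have hgr := tl_group hc hD0 hdiv s hs
  have hlogY : Real.log (2 * ((X ^ k : ℕ) : ℝ)) ≤ Λ := by
    rw [hΛ]
    rcases Nat.eq_zero_or_pos (X ^ k) with h | h
    · rw [h]
      rw [hΛ] at hΛ0
      simpa using hΛ0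
    · have : (0 : ℝ) < ((X ^ k : ℕ) : ℝ) := by exact_mod_cast h
      exact Real.log_le_log (by positivity) (by linarith)
  have hSW : S * (2 / T ^ (7 / 8 : ℝ)) ≤ 2 * T ^ (1 / 8 : ℝ) := by
    have h1 : T = T ^ (1 / 8 : ℝ) * T ^ (7 / 8 : ℝ) := by
      rw [← Real.rpow_add hT0]
      norm_num
    calc S * (2 / T ^ (7 / 8 : ℝ)) ≤ T * (2 / T ^ (7 / 8 : ℝ)) :=
          mul_le_mul_of_nonneg_right hST (by positivity)
      _ = 2 * T ^ (1 / 8 : ℝ) := by
          rw [mul_div_assoc', div_eq_iff hW.ne']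
          linear_combination 2 * h1
  have hT18 : T ^ (1 / 1000 : ℝ) ≤ T ^ (1 / 8 : ℝ) :=
    Real.rpow_le_rpow_of_exponent_le hT1 (by norm_num)
  obtain ⟨p, hp⟩ : ∃ p, p = T ^ (1 / 1000 : ℝ) := ⟨_, rfl⟩
  obtain ⟨q, hq⟩ : ∃ q, q = T ^ (1 / 8 : ℝ) := ⟨_, rfl⟩
  obtain ⟨w, hw⟩ : ∃ w, w = T ^ (7 / 4 : ℝ) := ⟨_, rfl⟩
  have hp0 : 0 ≤ p := by rw [hp]; positivity
  have hq0 : 0 ≤ q := by rw [hq]; positivity
  have hw0 : 0 ≤ w := by rw [hw]; positivity
  have hfin : p * p * w * q ≤ T ^ (19 / 10 : ℝ) := by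
    rw [hp, hq, hw, ← Real.rpow_add hT0, ← Real.rpow_add hT0, ← Real.rpow_add hT0]
    exact Real.rpow_le_rpow_of_exponent_le hT1 (by norm_num)
  rw [← hp] at hΛle hD hT18
  rw [← hq] at hT18 hSW
  rw [← hw] at hdy
  calc ∑ n ∈ s, ((∏ l, n l : ℕ) : ℝ)⁻¹ * c (∏ l, n l)
      ≤ D * ((Nat.log 2 (X ^ k) + 1 : ℕ) * (C1 * (C2 * w) *
        (S * (2 / T ^ (7 / 8 : ℝ)) + Real.log (2 * ((X ^ k : ℕ) : ℝ))))) :=
        hgr.trans (mul_le_mul_of_nonneg_left hdy hD0)
    _ ≤ D * ((2 * (C3 * p)) * (C1 * (C2 * w) * (2 * q + C3 * q))) := by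
        refine mul_le_mul_of_nonneg_left ?_ hD0
        have e1 : ((Nat.log 2 (X ^ k) + 1 : ℕ) : ℝ) ≤ 2 * (C3 * p) := by linarith
        have e2 : S * (2 / T ^ (7 / 8 : ℝ)) + Real.log (2 * ((X ^ k : ℕ) : ℝ)) ≤
            2 * q + C3 * q := by
          have : C3 * p ≤ C3 * q := mul_le_mul_of_nonneg_left hT18 hC3p.le
          linarith
        have e3 : 0 ≤ C1 * (C2 * w) := by positivity
        refine mul_le_mul e1 (mul_le_mul_of_nonneg_left e2 e3) ?_ (by positivity)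
        refine mul_nonneg e3 (add_nonneg (by positivity) ?_)
        rcases Nat.eq_zero_or_pos (X ^ k) with h | h
        · rw [h]; simp
        · refine Real.log_nonneg ?_
          have : (1 : ℝ) ≤ ((X ^ k : ℕ) : ℝ) := by exact_mod_cast h
          linarith
    _ = C4 * (2 * C3 * (C1 * C2 * (2 + C3))) * (p * p * w * q) := by
        rw [hD]
        ring
    _ ≤ C4 * (2 * C3 * (C1 * C2 * (2 + C3))) * T ^ (19 / 10 : ℝ) :=
        mul_le_mul_of_nonneg_left hfin (by positivity)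

end abstractPart

open Complex Filter Topology MeasureTheory Set
open Pool.Agent.TH612.CF
open Pool.Agent.TH612.GS

theorem t_TL (hA2 : Pool.Agent.TH612.GS.S_A2) (hMVB : Pool.Agent.TH612.GS.S_MVB) :
    Pool.Agent.TH612.GS.S_TL := by
  classical
  intro k α hk
  obtain ⟨C2, T₀, hC2, hT₀, hA⟩ := hA2 k α hk
  obtain ⟨C1, hC1, hM⟩ := hMVB
  obtain ⟨C, hC, hmain⟩ := tl_abs C1 C2 hC1 hC2
  refine ⟨C, T₀, hC, hT₀, ?_⟩
  intro T S X hT hS hST hX
  have hcont : Continuous (Pool.Agent.TH612.GS.AA α) := by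
    unfold Pool.Agent.TH612.GS.AA
    exact continuous_finsetProd _ fun j _ => Pool.Agent.TH612.GS.z_cont.comp (by fun_prop)
  have hcn : Continuous fun t => ‖Pool.Agent.TH612.GS.AA α t‖ ^ 2 := by fun_prop
  have hQ : ∫ t in (0:ℝ)..S, ‖Pool.Agent.TH612.GS.AA α t‖ ^ 2 ≤ C2 * T ^ (7 / 4 : ℝ) := by
    refine (intervalIntegral.integral_mono_interval le_rfl hS hST ?_ ?_).trans (hA T hT)
    · exact Eventually.of_forall fun u => by positivity
    · exact hcn.intervalIntegrable _ _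
  refine hmain k T S X (fun m => ‖Pool.Agent.TH612.GS.cI α S m‖ ^ 2) _ hk
    (fun m => by positivity) (hT₀.trans hT) hS hST hX ?_ ?_
  · intro M hM1
    have h1 := hM 0 S M (Pool.Agent.TH612.GS.AA α) hS hM1 hcont
    rw [sub_zero] at h1
    refine h1.trans ?_
    refine mul_le_mul_of_nonneg_left hQ ?_
    have h2 : (1 : ℝ) ≤ M := by exact_mod_cast hM1
    have h3 : 0 ≤ Real.log (2 * (M : ℝ)) := Real.log_nonneg (by linarith)
    positivity
  · intro n hn
    rw [Finset.mem_filter] at hn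
    exact hn

end Pool.Agent.TH576.GF
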